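import Pool.Agent.helper43.DHB.SpecB

set_option autoImplicit false

open Filter Topology MeasureTheory
open scoped commutatorElement

namespace Pool.Agent.helper90.DH

open Pool.Agent.helper64.D2

/-- Mean value inequality on the line. -/
theorem bNMF_mvt (f : ℝ → ℝ) (K : ℝ) (hf : Differentiable ℝ f) (hK : ∀ x, |deriv f x| ≤ K) (x y : ℝ) :
    |f x - f y| ≤ K * |x - y| := by
  have := Convex.norm_image_sub_le_of_norm_deriv_le (𝕜 := ℝ) (f := f) (C := K) (s := Set.univ) (x := y) (y := x)
    (fun z _ => hf z) (fun z _ => by rw [Real.norm_eq_abs]; exact hK z) convex_univ (Set.mem_univ _) (Set.mem_univ _)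
  simpa [Real.norm_eq_abs] using this

theorem bNMF_one (g : DD) (a : ℝ) (_ha : a ≤ 1 / 10) (hS : Sz g a) :
    NM a (ev g) ∧ ∀ x y, |deriv (ev g) x - deriv (ev g) y| ≤ a * |x - y| := by
  have hcd : ContDiff ℝ 2 (ev g) := ev_contDiff g
  have hd1 : Differentiable ℝ (ev g) := hcd.differentiable (by norm_num)
  have hcd' : ContDiff ℝ 1 (deriv (ev g)) := by
    have h2 : ContDiff ℝ (1 + 1) (ev g) := by
      have : (1 + 1 : WithTop ℕ∞) = 2 := by norm_num
      rw [this]; exact hcd
    exact (contDiff_succ_iff_deriv.1 h2).2.2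
  have hd2 : Differentiable ℝ (deriv (ev g)) := hcd'.differentiable (by norm_num)
  have hlip : ∀ x y, |deriv (ev g) x - deriv (ev g) y| ≤ a * |x - y| := fun x y =>
    bNMF_mvt (deriv (ev g)) a hd2 (fun z => hS z) x y
  have ha0 : 0 ≤ a := le_trans (abs_nonneg _) (hS 0)
  have hout : ∀ x, x < 0 ∨ 1 < x → deriv (ev g) x = 1 := by
    intro x hx
    have hev : ev g =ᶠ[𝓝 x] (fun y => y) := by
      rcases hx with h | h
      · filter_upwards [Iio_mem_nhds h] with y hy
        exact ev_out g y (fun hy' => absurd hy'.1 (not_lt.2 (le_of_lt hy)))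
      · filter_upwards [Ioi_mem_nhds h] with y hy
        exact ev_out g y (fun hy' => absurd hy'.2 (not_lt.2 (le_of_lt hy)))
    rw [hev.deriv_eq]
    simp
  have hsl : ∀ x, |deriv (ev g) x - 1| ≤ a := by
    intro x
    by_cases hx : x < 0 ∨ 1 < x
    · rw [hout x hx]; simpa using ha0
    · push Not at hx
      apply le_of_forall_pos_le_add
      intro ε hε
      have h1 : deriv (ev g) (-(ε / (a + 1))) = 1 := hout _ (Or.inl (by
        have : 0 < ε / (a + 1) := by positivity
        linarith))
      have h2 := hlip x (-(ε / (a + 1)))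
      rw [h1] at h2
      have hpos : 0 < ε / (a + 1) := by positivity
      have h3 : |x - -(ε / (a + 1))| = x + ε / (a + 1) := by
        rw [abs_of_nonneg] <;> linarith [hx.1]
      rw [h3] at h2
      have h4 : a * (ε / (a + 1)) ≤ ε := by
        rw [← mul_div_assoc, div_le_iff₀ (by linarith)]
        nlinarith
      have h5 : a * x ≤ a := by nlinarith [hx.2]
      linarith [mul_add a x (ε / (a + 1))]
  refine ⟨⟨hcd.of_le (by norm_num), hsl, ?_⟩, hlip⟩
  intro x
  by_cases hx : x ∈ Set.Ioo (0 : ℝ) 1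
  · have hdd : ∀ z, deriv (fun y => ev g y - y) z = deriv (ev g) z - 1 := by
      intro z
      have h := ((hd1 z).hasDerivAt.sub (hasDerivAt_id z)).deriv
      exact h
    have h := bNMF_mvt (fun y => ev g y - y) a (hd1.sub differentiable_id) (fun z => by rw [hdd z]; exact hsl z) x 0
    have h0 : ev g 0 = 0 := ev_out g 0 (by simp)
    simp only [h0, sub_zero] at h
    have h6 : |x| = x := abs_of_pos hx.1
    rw [h6] at h
    nlinarith [hx.2]
  · rw [ev_out g x hx]; simpa using ha0

theorem bNMF_two (P Q : ℝ → ℝ) (a b c : ℝ) (hP : NM a P) (hQ : NM b Q) :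
    NM (a + b + a * b + |c|) (fun x => P (Q x + c)) := by
  have ha0 : 0 ≤ a := le_trans (abs_nonneg _) (hP.sl 0)
  have hb0 : 0 ≤ b := le_trans (abs_nonneg _) (hQ.sl 0)
  have hc0 : 0 ≤ |c| := abs_nonneg c
  have hdP : Differentiable ℝ P := hP.cd.differentiable (by norm_num)
  have hdQ : Differentiable ℝ Q := hQ.cd.differentiable (by norm_num)
  refine ⟨hP.cd.comp (hQ.cd.add contDiff_const), ?_, ?_⟩
  · intro x
    have h1 : HasDerivAt (fun y => Q y + c) (deriv Q x) x := (hdQ x).hasDerivAt.add_const c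
    have h2 : HasDerivAt P (deriv P (Q x + c)) (Q x + c) := (hdP _).hasDerivAt
    have h3 : HasDerivAt (fun y => P (Q y + c)) (deriv P (Q x + c) * deriv Q x) x := HasDerivAt.comp x h2 h1
    rw [h3.deriv]
    have e1 := hP.sl (Q x + c)
    have e2 := hQ.sl x
    have h4 : deriv P (Q x + c) * deriv Q x - 1 = (deriv P (Q x + c) - 1) * (deriv Q x - 1) + (deriv P (Q x + c) - 1) + (deriv Q x - 1) := by ring
    rw [h4]
    have h5 : |(deriv P (Q x + c) - 1) * (deriv Q x - 1)| ≤ a * b := by
      rw [abs_mul]; exact mul_le_mul e1 e2 (abs_nonneg _) ha0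
    calc |(deriv P (Q x + c) - 1) * (deriv Q x - 1) + (deriv P (Q x + c) - 1) + (deriv Q x - 1)|
        ≤ |(deriv P (Q x + c) - 1) * (deriv Q x - 1)| + |deriv P (Q x + c) - 1| + |deriv Q x - 1| := abs_add_three _ _ _
      _ ≤ a + b + a * b + |c| := by linarith
  · intro x
    have e1 := hP.ds (Q x + c)
    have e2 := hQ.ds x
    have h4 : P (Q x + c) - x = (P (Q x + c) - (Q x + c)) + (Q x - x) + c := by ring
    rw [h4]
    have hab : 0 ≤ a * b := mul_nonneg ha0 hb0
    calc |(P (Q x + c) - (Q x + c)) + (Q x - x) + c| ≤ |P (Q x + c) - (Q x + c)| + |Q x - x| + |c| := abs_add_three _ _ _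
      _ ≤ a + b + a * b + |c| := by linarith

theorem bNMF_three (C : ℝ → ℝ) (a : ℝ) (ha : a ≤ 1 / 10) (hC : NM a C) : Continuous C ∧ StrictMono C ∧ Function.Surjective C ∧
    ∀ x y, (1 - a) * |x - y| ≤ |C x - C y| ∧ |C x - C y| ≤ (1 + a) * |x - y| := by
  have hd : Differentiable ℝ C := hC.cd.differentiable (by norm_num)
  have hcont : Continuous C := hC.cd.continuous
  refine ⟨hcont, ?_, ?_, ?_⟩
  · apply strictMono_of_deriv_pos
    intro x
    have := (abs_le.1 (hC.sl x)).1
    linarith
  · apply hcont.surjective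
    · apply tendsto_atTop_mono (f := fun x => x - a)
      · intro x
        have := (abs_le.1 (hC.ds x)).1
        linarith
      · exact tendsto_atTop_add_const_right _ _ tendsto_id
    · apply tendsto_atBot_mono (f := fun x => x + a) (g := C)
      · intro x
        have := (abs_le.1 (hC.ds x)).2
        linarith
      · exact tendsto_atBot_add_const_right _ _ tendsto_id
  · intro x y
    have hdd : ∀ z, deriv (fun y => C y - y) z = deriv C z - 1 := by
      intro z
      exact ((hd z).hasDerivAt.sub (hasDerivAt_id z)).deriv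
    have h := bNMF_mvt (fun y => C y - y) a (hd.sub differentiable_id) (fun z => by rw [hdd z]; exact hC.sl z) x y
    have h1 : C x - C y = (C x - x - (C y - y)) + (x - y) := by ring
    constructor
    · have h2 : |x - y| ≤ |C x - C y| + |C x - x - (C y - y)| := by
        have : x - y = (C x - C y) - (C x - x - (C y - y)) := by ring
        calc |x - y| = |(C x - C y) - (C x - x - (C y - y))| := by rw [← this]
          _ ≤ _ := abs_sub _ _
      linarith
    · calc |C x - C y| = |(C x - x - (C y - y)) + (x - y)| := by rw [← h1]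
        _ ≤ |C x - x - (C y - y)| + |x - y| := abs_add_le _ _
        _ ≤ (1 + a) * |x - y| := by linarith

theorem bNMF_four (C : ℝ → ℝ) (a : ℝ) (g : ℝ → ℝ) (ha : a ≤ 1 / 10) (hC : NM a C) (hg : ∀ x, 0 ≤ g x) (hi : Integrable g) :
    Integrable (fun x => g (C x)) ∧ ∫ x, g (C x) ≤ (1 / (1 - a)) * ∫ x, g x := by
  obtain ⟨hcont, hmono, hsurj, -⟩ := bNMF_three C a ha hC
  have hd : Differentiable ℝ C := hC.cd.differentiable (by norm_num)
  have hdc : Continuous (deriv C) := hC.cd.continuous_deriv (by norm_num)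
  have hder : ∀ x ∈ (Set.univ : Set ℝ), HasDerivWithinAt C (deriv C x) Set.univ x := fun x _ => (hd x).hasDerivAt.hasDerivWithinAt
  have hinj : Set.InjOn C Set.univ := hmono.injective.injOn
  have him : C '' Set.univ = Set.univ := by rw [Set.image_univ]; exact hsurj.range_eq
  have h1 := (integrableOn_image_iff_integrableOn_abs_deriv_smul MeasurableSet.univ hder hinj g)
  rw [him, integrableOn_univ, integrableOn_univ] at h1
  have h2 : Integrable (fun x => |deriv C x| • g (C x)) := h1.1 hi
  have h3 := integral_image_eq_integral_abs_deriv_smul MeasurableSet.univ hder hinj g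
  rw [him, setIntegral_univ, setIntegral_univ] at h3
  have ha1 : 0 < 1 - a := by linarith
  have hlow : ∀ x, 1 - a ≤ |deriv C x| := by
    intro x
    have := (abs_le.1 (hC.sl x)).1
    exact le_trans (by linarith) (le_abs_self _)
  have hpos : ∀ x, 0 < |deriv C x| := fun x => lt_of_lt_of_le ha1 (hlow x)
  have hle : ∀ x, g (C x) ≤ (1 / (1 - a)) * (|deriv C x| • g (C x)) := by
    intro x
    rw [smul_eq_mul, ← mul_assoc]
    have h5 : 1 ≤ 1 / (1 - a) * |deriv C x| := by
      rw [one_div, ← div_eq_inv_mul, le_div_iff₀ ha1]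
      linarith [hlow x]
    nlinarith [hg (C x)]
  have h4 : Integrable (fun x => g (C x)) := by
    have hm : AEStronglyMeasurable (fun x => g (C x)) volume := by
      have h6 : AEStronglyMeasurable (fun x => (|deriv C x|)⁻¹ * (|deriv C x| • g (C x))) volume := by
        apply AEStronglyMeasurable.mul
        · exact (hdc.abs.inv₀ (fun x => (hpos x).ne')).aestronglyMeasurable
        · exact h2.aestronglyMeasurable
      refine h6.congr (Eventually.of_forall fun x => ?_)
      simp only [smul_eq_mul]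
      rw [← mul_assoc, inv_mul_cancel₀ (hpos x).ne', one_mul]
    refine Integrable.mono' (h2.const_mul (1 / (1 - a))) hm (Eventually.of_forall fun x => ?_)
    rw [Real.norm_eq_abs, abs_of_nonneg (hg _)]
    exact hle x
  refine ⟨h4, ?_⟩
  calc ∫ x, g (C x) ≤ ∫ x, (1 / (1 - a)) * (|deriv C x| • g (C x)) :=
        integral_mono h4 (h2.const_mul _) hle
    _ = (1 / (1 - a)) * ∫ x, g x := by rw [integral_const_mul, ← h3]

theorem bNMF : bNMF_stmt :=
  ⟨fun g a ha hS => bNMF_one g a ha hS, fun P Q a b c _ _ hP hQ => bNMF_two P Q a b c hP hQ,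
    fun C a ha hC => bNMF_three C a ha hC, fun C a g ha hC hg hi => bNMF_four C a g ha hC hg hi⟩

end Pool.Agent.helper90.DH
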